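import Mathlib.Analysis.SpecialFunctions.Pow.Real
import Mathlib.Tactic

set_option autoImplicit false

/-! Simple continued fractions of real numbers and the maps `x ↦ (d x + k) / (x + d)`. -/

namespace Pool.Agent.Q1.CF

/-- The complete quotients `α₀ = x`, `α_{n+1} = 1 / (α_n - ⌊α_n⌋)` of the real number `x`. -/
noncomputable def cq (x : ℝ) : ℕ → ℝ
  | 0 => x
  | n + 1 => 1 / (cq x n - ⌊cq x n⌋)

/-- The partial quotient `c_n` of `x = [c₀; c₁, c₂, …]`. -/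
noncomputable def coef (x : ℝ) (n : ℕ) : ℤ := ⌊cq x n⌋

/-- The numerators `p_j` of the convergents `p_j / q_j = [c₀; c₁, …, c_{j-1}]`, `j ≥ 1`; `p₀ = 1`. -/
noncomputable def num (x : ℝ) : ℕ → ℤ
  | 0 => 1
  | 1 => coef x 0
  | n + 2 => coef x (n + 1) * num x (n + 1) + num x n

/-- The denominators `q_j` of the convergents `p_j / q_j = [c₀; c₁, …, c_{j-1}]`, `j ≥ 1`; `q₀ = 0`. -/
noncomputable def den (x : ℝ) : ℕ → ℤ
  | 0 => 0
  | 1 => 1
  | n + 2 => coef x (n + 1) * den x (n + 1) + den x n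

/-- The convergent `p_j / q_j` of `√k`, `j ≥ 1`. -/
noncomputable def conv (k j : ℕ) : ℚ := (num (√(k : ℝ)) j : ℚ) / (den (√(k : ℝ)) j : ℚ)

/-- The map `f_d(x) = (d x + k) / (x + d)` on `ℚ ∪ {∞}`; `none` stands for `∞`. -/
def f (k : ℕ) (d : ℚ) : Option ℚ → Option ℚ
  | none => some d
  | some x => if x + d = 0 then none else some ((d * x + k) / (x + d))

/-- `R = 4 d² / (k - d²)`. -/
def R (k : ℕ) (d : ℚ) : ℚ := 4 * d ^ 2 / ((k : ℚ) - d ^ 2)

/-- The rational number `x = p / q` (in lowest terms, positive) is Pellian: `p² - k q² = ± 1`. -/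
def Pellian (k : ℕ) (x : ℚ) : Prop :=
  0 < x ∧ (x.num ^ 2 - (k : ℤ) * (x.den : ℤ) ^ 2 = 1 ∨ x.num ^ 2 - (k : ℤ) * (x.den : ℤ) ^ 2 = -1)

theorem cq_step {k : ℕ} {x : ℝ} {n : ℕ} (m d c m' d' : ℤ) {s : ℝ} (hs : s * s = k) (hd : 0 < d)
    (h : cq x n = (s + m) / d) (h1 : ((c * d - m : ℤ) : ℝ) ≤ s) (h2 : s < (((c + 1) * d - m : ℤ) : ℝ))
    (hm' : m' = c * d - m) (hd' : d * d' = k - m' ^ 2) (hd0 : d' ≠ 0) :
    coef x n = c ∧ cq x (n + 1) = (s + m') / d' := by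
  have hdR : (0 : ℝ) < d := by exact_mod_cast hd
  have hc : ⌊cq x n⌋ = c := by
    rw [h, Int.floor_eq_iff, le_div_iff₀ hdR, div_lt_iff₀ hdR]
    push_cast at h1 h2
    constructor <;> linarith
  refine ⟨hc, ?_⟩
  have hd0R : (d' : ℝ) ≠ 0 := by exact_mod_cast hd0
  have e : (d : ℝ) * d' = s * s - (m' : ℝ) ^ 2 := by rw [hs]; exact_mod_cast hd'
  have hne : s - m' ≠ 0 := by
    intro h0
    have : s * s - (m' : ℝ) ^ 2 = 0 := by
      have : s * s - (m' : ℝ) ^ 2 = (s - m') * (s + m') := by ring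
      rw [this, h0, zero_mul]
    rw [this] at e
    exact (mul_ne_zero hdR.ne' hd0R) e
  show 1 / (cq x n - ⌊cq x n⌋) = _
  rw [hc, h]
  have hm2 : (m' : ℝ) = c * d - m := by rw [hm']; push_cast; ring
  have e2 : (s + m) / d - c = (s - m') / d := by
    rw [hm2]; field_simp; ring
  rw [e2, one_div_div, div_eq_div_iff hne hd0R]
  rw [e]; ring

/-- The step lemma with integral bounds `lo ≤ s < lo + 1`. -/
theorem cq_step' {k : ℕ} {x : ℝ} {n : ℕ} (m d c m' d' : ℤ) {s : ℝ} (lo : ℤ) (hs : s * s = k)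
    (hlo : (lo : ℝ) ≤ s) (hhi : s < (lo : ℝ) + 1) (hd : 0 < d)
    (h : cq x n = (s + m) / d) (h1 : c * d - m ≤ lo) (h2 : lo + 1 ≤ (c + 1) * d - m)
    (hm' : m' = c * d - m) (hd' : d * d' = k - m' ^ 2) (hd0 : d' ≠ 0) :
    coef x n = c ∧ cq x (n + 1) = (s + m') / d' := by
  refine cq_step m d c m' d' hs hd h ?_ ?_ hm' hd' hd0
  · have : ((c * d - m : ℤ) : ℝ) ≤ lo := by exact_mod_cast h1
    linarith
  · have : ((lo : ℤ) : ℝ) + 1 ≤ (((c + 1) * d - m : ℤ) : ℝ) := by exact_mod_cast h2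
    linarith

theorem rat_num_den (a b : ℕ) (hb : 0 < b) (hab : Nat.Coprime a b) (x : ℚ)
    (hx : x = (a : ℚ) / b) : x.num = a ∧ (x.den : ℤ) = b := by
  have hx' : x = ((a : ℤ) : ℚ) / ((b : ℤ) : ℚ) := by rw [hx]; push_cast; rfl
  constructor
  · rw [hx']
    exact Rat.num_div_eq_of_coprime (by exact_mod_cast hb) (by simpa using hab)
  · rw [hx']
    exact Rat.den_div_eq_of_coprime (by exact_mod_cast hb) (by simpa using hab)

/-- deciding whether a fraction in lowest terms is Pellian -/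
theorem pell_iff (k : ℕ) (a b : ℕ) (ha : 0 < a) (hb : 0 < b) (hab : Nat.Coprime a b) (x : ℚ)
    (hx : x = (a : ℚ) / b) :
    Pellian k x ↔ ((a : ℤ) ^ 2 - k * (b : ℤ) ^ 2 = 1 ∨ (a : ℤ) ^ 2 - k * (b : ℤ) ^ 2 = -1) := by
  obtain ⟨hnum, hden⟩ := rat_num_den a b hb hab x hx
  have hpos : 0 < x := by rw [hx]; positivity
  unfold Pellian
  rw [hnum, hden]
  simp [hpos]

theorem int_iff (a b : ℤ) (hb : b ≠ 0) (x : ℚ) (hx : x = (a : ℚ) / b) :
    (∃ r : ℤ, x = r) ↔ b ∣ a := by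
  constructor
  · rintro ⟨r, hr⟩
    refine ⟨r, ?_⟩
    have hbq : (b : ℚ) ≠ 0 := by exact_mod_cast hb
    rw [hx, div_eq_iff hbq] at hr
    have : a = r * b := by exact_mod_cast hr
    rw [this]; ring
  · rintro ⟨r, rfl⟩
    refine ⟨r, ?_⟩
    have hbq : (b : ℚ) ≠ 0 := by exact_mod_cast hb
    rw [hx]; push_cast; field_simp

end Pool.Agent.Q1.CF
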